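import Pool.Agent.H55.PM.Targets

/-!
# Board pm_modules, CT: beyond `log x / log log x` the density does not decide
-/

set_option autoImplicit false

open Finset

namespace Pool.Agent.H55.PM

namespace CT

/-- the exponent defect -/
def mm (l : ℕ → ℕ) (i : ℕ) : ℕ := i - l i

/-- the cluster sizes -/
def PP (l : ℕ → ℕ) (s : ℕ) : ℕ := 2 ^ (s - mm l (Nat.log 2 s))

theorem mm_mono {l : ℕ → ℕ} (h2 : ∀ i, l (i + 1) ≤ l i + 1) (h3 : ∀ i, 2 * l i ≤ i) :
    Monotone (mm l) := by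
  refine monotone_nat_of_le_succ (fun i => ?_)
  have a := h2 i
  have b := h3 i
  have c := h3 (i + 1)
  unfold mm
  omega

theorem mm_succ {l : ℕ → ℕ} (h1 : Monotone l) (h3 : ∀ i, 2 * l i ≤ i) (i : ℕ) :
    mm l (i + 1) ≤ mm l i + 1 := by
  have a : l i ≤ l (i + 1) := h1 (Nat.le_succ i)
  have b := h3 i
  unfold mm
  omega

theorem mm_le {l : ℕ → ℕ} (i : ℕ) : mm l i ≤ i := Nat.sub_le _ _

theorem le_mm {l : ℕ → ℕ} (h3 : ∀ i, 2 * l i ≤ i) (i : ℕ) : i ≤ 2 * mm l i := by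
  have b := h3 i
  unfold mm
  omega

theorem mm_add {l : ℕ → ℕ} (h3 : ∀ i, 2 * l i ≤ i) (i : ℕ) : mm l i + l i = i := by
  have b := h3 i
  unfold mm
  omega

theorem log_succ (s : ℕ) : Nat.log 2 (s + 1) ≤ Nat.log 2 s + 1 := by
  rcases Nat.eq_zero_or_pos s with rfl | h
  · simp
  · have h1 : Nat.log 2 (s + 1) ≤ Nat.log 2 (s * 2) := Nat.log_mono_right (by omega)
    rwa [Nat.log_mul_base (by norm_num) (by omega)] at h1

theorem mlog_le {l : ℕ → ℕ} (s : ℕ) : mm l (Nat.log 2 s) ≤ s :=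
  (mm_le _).trans (Nat.log_le_self 2 s)

theorem PP_mono {l : ℕ → ℕ} (h1 : Monotone l) (h2 : ∀ i, l (i + 1) ≤ l i + 1)
    (h3 : ∀ i, 2 * l i ≤ i) : Monotone (PP l) := by
  refine monotone_nat_of_le_succ (fun s => ?_)
  have a : mm l (Nat.log 2 (s + 1)) ≤ mm l (Nat.log 2 s + 1) := mm_mono h2 h3 (log_succ s)
  have b := mm_succ h1 h3 (Nat.log 2 s)
  unfold PP
  apply Nat.pow_le_pow_right (by norm_num)
  omega

theorem PP_le {l : ℕ → ℕ} (s : ℕ) : PP l s ≤ 2 ^ s :=
  Nat.pow_le_pow_right (by norm_num) (Nat.sub_le _ _)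

theorem PP_ratio {l : ℕ → ℕ} (h2 : ∀ i, l (i + 1) ≤ l i + 1)
    (h3 : ∀ i, 2 * l i ≤ i) {a b : ℕ} (hab : a ≤ b) : PP l b * 2 ^ a ≤ PP l a * 2 ^ b := by
  have h : mm l (Nat.log 2 a) ≤ mm l (Nat.log 2 b) := mm_mono h2 h3 (Nat.log_mono_right hab)
  have h4 : mm l (Nat.log 2 a) ≤ a := mlog_le a
  have h5 : mm l (Nat.log 2 b) ≤ b := mlog_le b
  unfold PP
  rw [← pow_add, ← pow_add]
  apply Nat.pow_le_pow_right (by norm_num)
  omega

theorem two_mul_le_pow (i : ℕ) : 2 * i ≤ 2 ^ i := by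
  induction i with
  | zero => simp
  | succ n ih =>
    rcases Nat.eq_zero_or_pos n with rfl | h
    · norm_num
    · rw [pow_succ]; omega

theorem PP_unb {l : ℕ → ℕ} (s : ℕ) : s < 2 * PP l s := by
  rcases Nat.eq_zero_or_pos s with rfl | h
  · simp [PP]
  have h1 : 2 ^ Nat.log 2 s ≤ s := Nat.pow_log_le_self 2 (by omega)
  have h2 := two_mul_le_pow (Nat.log 2 s)
  have h3 : mm l (Nat.log 2 s) ≤ Nat.log 2 s := mm_le _
  have h4 : 2 ^ Nat.log 2 s ≤ PP l s :=
    Nat.pow_le_pow_right (by norm_num) (by omega)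
  have h5 : s < 2 ^ (Nat.log 2 s + 1) := Nat.lt_pow_succ_log_self (by norm_num) s
  rw [pow_succ] at h5
  omega

theorem PP_zero {l : ℕ → ℕ} : PP l 0 = 1 := by simp [PP]

/-- the double logarithm -/
def S (x : ℕ) : ℕ := Nat.log 2 (Nat.log 2 x)

theorem S_le {x : ℕ} (hx : 2 ≤ x) : 2 ^ 2 ^ S x ≤ x := by
  have h1 : Nat.log 2 x ≠ 0 := by
    have := Nat.log_pos (b := 2) (by norm_num) hx
    omega
  exact (Nat.pow_le_pow_right (by norm_num) (Nat.pow_log_le_self 2 h1)).trans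
    (Nat.pow_log_le_self 2 (by omega))

theorem lt_S (x : ℕ) : x < 2 ^ 2 ^ (S x + 1) := by
  have h1 : Nat.log 2 x < 2 ^ (S x + 1) := Nat.lt_pow_succ_log_self (by norm_num) _
  exact (Nat.lt_pow_succ_log_self (by norm_num) x).trans_le
    (Nat.pow_le_pow_right (by norm_num) h1)

theorem log_tendsto : Filter.Tendsto (Nat.log 2) Filter.atTop Filter.atTop := by
  refine Filter.tendsto_atTop_atTop.2 (fun b => ⟨2 ^ b, fun a ha => ?_⟩)
  have h := Nat.log_mono_right (b := 2) ha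
  rwa [Nat.log_pow (by norm_num)] at h

theorem S_tendsto : Filter.Tendsto S Filter.atTop Filter.atTop :=
  log_tendsto.comp log_tendsto

theorem S_mono {x y : ℕ} (h : y ≤ x) : S y ≤ S x :=
  Nat.log_mono_right (Nat.log_mono_right h)

theorem log_lower {x : ℕ} (hx : 2 ≤ x) : (2 : ℝ) ^ S x * Real.log 2 ≤ Real.log x := by
  have h : ((2 : ℝ) ^ 2 ^ S x) ≤ x := by exact_mod_cast S_le hx
  have h2 := Real.log_le_log (by positivity) h
  rw [Real.log_pow] at h2
  push_cast at h2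
  exact h2

theorem log_upper {x : ℕ} (hx : 2 ≤ x) : Real.log x ≤ (2 : ℝ) ^ (S x + 1) * Real.log 2 := by
  have h : (x : ℝ) ≤ (2 : ℝ) ^ 2 ^ (S x + 1) := by exact_mod_cast (lt_S x).le
  have h0 : (0 : ℝ) < x := by exact_mod_cast (by omega : 0 < x)
  have h2 := Real.log_le_log h0 h
  rw [Real.log_pow] at h2
  push_cast at h2
  exact h2

theorem loglog_upper {x : ℕ} (hx : 2 ≤ x) : Real.log (Real.log x) ≤ (S x : ℝ) + 1 := by
  have h0 : (1 : ℝ) < x := by exact_mod_cast (by omega : 1 < x)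
  have hl : 0 < Real.log x := Real.log_pos h0
  have h2 : Real.log 2 < 1 := by
    have := Real.log_two_lt_d9; linarith
  have h2p : 0 < Real.log 2 := Real.log_pos (by norm_num)
  have h1 : Real.log x ≤ (2 : ℝ) ^ (S x + 1) := by
    refine (log_upper hx).trans ?_
    have : (0 : ℝ) < 2 ^ (S x + 1) := by positivity
    nlinarith
  have h3 := Real.log_le_log hl h1
  rw [Real.log_pow] at h3
  push_cast at h3
  have h4 : ((S x : ℝ) + 1) * Real.log 2 ≤ (S x : ℝ) + 1 := by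
    have : (0 : ℝ) ≤ (S x : ℝ) + 1 := by positivity
    nlinarith
  linarith

/-- the function `κ` -/
noncomputable def kap (h : ℕ → ℝ) (i : ℕ) : ℕ := by
  classical
  exact Nat.findGreatest (fun k => ∀ x : ℕ, 2 ^ 2 ^ (2 ^ i - 1) ≤ x → 64 * (2 : ℝ) ^ k ≤ h x) i

theorem X_ge (i : ℕ) : i ≤ 2 ^ 2 ^ (2 ^ i - 1) := by
  have h1 : i < 2 ^ i := Nat.lt_two_pow_self
  have h2 : 2 ^ i - 1 < 2 ^ (2 ^ i - 1) := Nat.lt_two_pow_self
  have h3 : 2 ^ (2 ^ i - 1) < 2 ^ 2 ^ (2 ^ i - 1) := Nat.lt_two_pow_self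
  omega

theorem kap_spec (h : ℕ → ℝ) (hh : Filter.Tendsto h Filter.atTop Filter.atTop) :
    ∃ i₁, ∀ i ≥ i₁, ∀ x : ℕ, 2 ^ 2 ^ (2 ^ i - 1) ≤ x → 64 * (2 : ℝ) ^ kap h i ≤ h x := by
  obtain ⟨i₁, hi⟩ := Filter.eventually_atTop.1 (hh.eventually_ge_atTop 64)
  refine ⟨i₁, fun i hii => ?_⟩
  classical
  have := Nat.findGreatest_spec (P := fun k => ∀ x : ℕ, 2 ^ 2 ^ (2 ^ i - 1) ≤ x →
    64 * (2 : ℝ) ^ k ≤ h x) (m := 0) (n := i) (Nat.zero_le _) (by
      intro x hx
      have := hi x (by have := X_ge i; omega)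
      simpa using this)
  unfold kap
  convert this

theorem kap_tendsto (h : ℕ → ℝ) (hh : Filter.Tendsto h Filter.atTop Filter.atTop) :
    Filter.Tendsto (fun i => (kap h i : ℝ)) Filter.atTop Filter.atTop := by
  refine tendsto_natCast_atTop_atTop.comp (Filter.tendsto_atTop_atTop.2 (fun b => ?_))
  obtain ⟨i₁, hi⟩ := Filter.eventually_atTop.1 (hh.eventually_ge_atTop (64 * (2 : ℝ) ^ b))
  refine ⟨max i₁ b, fun i hii => ?_⟩
  classical
  have := Nat.le_findGreatest (P := fun k => ∀ x : ℕ, 2 ^ 2 ^ (2 ^ i - 1) ≤ x →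
    64 * (2 : ℝ) ^ k ≤ h x) (m := b) (n := i) ((le_max_right _ _).trans hii) (by
      intro x hx
      exact hi x (by have := X_ge i; have := (le_max_left i₁ b).trans hii; omega))
  unfold kap
  convert this

end CT

open CT

theorem pf_ct (hCC : T_CC) (hSL : T_SL) (hNG : T_NG) : T_CT := by
  intro h hh
  obtain ⟨l, h1, hl, h2, h3, i₀, hi₀⟩ := hSL _ (kap_tendsto h hh)
  obtain ⟨i₁, hi₁⟩ := kap_spec h hh
  have hmono : Monotone (PP l) := PP_mono h1 h2 h3
  have hcc := hCC (PP l) hmono PP_le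
  set A : Set ℕ := CL (PP l) with hA
  have hlow : ∀ x : ℕ, 2 ≤ x → PP l (S x) ≤ 1 + cnt A x := by
    intro x hx
    have := (hcc (S x) x (S_le hx) (lt_S x)).1
    rwa [PP_zero] at this
  have hupp : ∀ x : ℕ, 2 ≤ x → cnt A x ≤ 2 * PP l (S x + 1) := by
    intro x hx
    have := (hcc (S x) x (S_le hx) (lt_S x)).2
    have h4 : 0 < PP l (S x + 1) := Nat.pow_pos (by norm_num)
    omega
  have hlow2 : ∀ x : ℕ, 2 ^ 2 ^ 4 ≤ x → PP l (S x) ≤ 2 * cnt A x := by
    intro x hx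
    have h4 : 4 ≤ S x := by
      have := S_mono hx
      have h5 : S (2 ^ 2 ^ 4) = 4 := by
        unfold S
        rw [Nat.log_pow (by norm_num), Nat.log_pow (by norm_num)]
      omega
    have h5 := PP_unb (l := l) (S x)
    have h6 := hlow x (le_trans (by norm_num) hx)
    omega
  have hlog2 : 0 < Real.log 2 := Real.log_pos (by norm_num)
  have hlog2' : (1 : ℝ) / 2 < Real.log 2 := by
    have := Real.log_two_gt_d9; linarith
  refine ⟨A, ?_, ?_, Or.inl rfl, ?_, ?_, ?_, ?_⟩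
  · -- infinite
    intro hfin
    have hb : ∀ x, cnt A x ≤ A.ncard := fun x => Set.ncard_le_ncard Set.inter_subset_left hfin
    have h4 := hlow (2 ^ 2 ^ (2 * A.ncard + 4)) (by
      calc 2 = 2 ^ 1 := by norm_num
        _ ≤ _ := Nat.pow_le_pow_right (by norm_num) Nat.one_le_two_pow)
    have h5 : S (2 ^ 2 ^ (2 * A.ncard + 4)) = 2 * A.ncard + 4 := by
      unfold S
      rw [Nat.log_pow (by norm_num), Nat.log_pow (by norm_num)]
    rw [h5] at h4
    have h6 := PP_unb (l := l) (2 * A.ncard + 4)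
    have h7 := hb (2 ^ 2 ^ (2 * A.ncard + 4))
    omega
  · rintro a (rfl | ⟨s, h4, -⟩)
    · norm_num
    · exact lt_of_lt_of_le (Nat.pow_pos (by norm_num)) h4
  · -- almost decreasing
    refine ⟨16, 2 ^ 2 ^ 4, fun x y hy hyx => ?_⟩
    have hy2 : 2 ≤ y := le_trans (by norm_num) hy
    have hx2 : 2 ≤ x := hy2.trans hyx
    have e1 : (cnt A x : ℝ) ≤ 2 * PP l (S x + 1) := by exact_mod_cast hupp x hx2
    have e2 : (PP l (S y) : ℝ) ≤ 2 * cnt A y := by exact_mod_cast hlow2 y hy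
    have e3 := log_upper hy2
    have e4 := log_lower hx2
    have e5 : (PP l (S x + 1) : ℝ) * 2 ^ S y ≤ PP l (S y) * 2 ^ (S x + 1) := by
      exact_mod_cast PP_ratio h2 h3 (show S y ≤ S x + 1 by have := S_mono hyx; omega)
    have hly : 0 ≤ Real.log y := Real.log_nonneg (by exact_mod_cast (by omega : 1 ≤ y))
    calc (cnt A x : ℝ) * Real.log y ≤ (2 * PP l (S x + 1)) * ((2 : ℝ) ^ (S y + 1) * Real.log 2) :=
          mul_le_mul e1 e3 hly (by positivity)
      _ = 4 * ((PP l (S x + 1) : ℝ) * 2 ^ S y) * Real.log 2 := by rw [pow_succ]; ring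
      _ ≤ 4 * (PP l (S y) * 2 ^ (S x + 1)) * Real.log 2 := by gcongr
      _ = 8 * PP l (S y) * ((2 : ℝ) ^ S x * Real.log 2) := by rw [pow_succ]; ring
      _ ≤ 8 * (2 * cnt A y) * Real.log x := by gcongr
      _ = 16 * cnt A y * Real.log x := by ring
  · -- the limit
    have hm : Filter.Tendsto (fun x : ℕ => mm l (Nat.log 2 (S x + 1))) Filter.atTop
        Filter.atTop := by
      have a : Filter.Tendsto (mm l) Filter.atTop Filter.atTop := by
        refine Filter.tendsto_atTop_atTop.2 (fun b => ⟨2 * b, fun i hi => ?_⟩)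
        have := le_mm h3 i
        omega
      have b : Filter.Tendsto (fun x : ℕ => S x + 1) Filter.atTop Filter.atTop :=
        Filter.tendsto_atTop_mono (fun x => Nat.le_succ (S x)) S_tendsto
      exact a.comp (log_tendsto.comp b)
    have hlim : Filter.Tendsto (fun x : ℕ => (8 : ℝ) * (1 / 2) ^ mm l (Nat.log 2 (S x + 1)))
        Filter.atTop (nhds 0) := by
      have := ((tendsto_pow_atTop_nhds_zero_of_lt_one (r := (1 / 2 : ℝ)) (by norm_num)
        (by norm_num)).comp hm).const_mul 8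
      simpa using this
    refine squeeze_zero' (Filter.Eventually.of_forall fun x => by
      have : 0 ≤ Real.log (x : ℝ) := Real.log_natCast_nonneg x
      positivity) ?_ hlim
    filter_upwards [Filter.eventually_ge_atTop 2] with x hx
    have e1 : (cnt A x : ℝ) ≤ 2 * PP l (S x + 1) := by exact_mod_cast hupp x hx
    have e4 := log_lower hx
    have hpos : 0 < (2 : ℝ) ^ S x * Real.log 2 := by positivity
    rw [div_le_iff₀ (hpos.trans_le e4)]
    have e6 : (PP l (S x + 1) : ℝ) = 2 ^ (S x + 1) * (1 / 2) ^ mm l (Nat.log 2 (S x + 1)) := by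
      have h5 : mm l (Nat.log 2 (S x + 1)) ≤ S x + 1 := mlog_le _
      unfold PP
      push_cast
      rw [one_div, inv_pow, ← div_eq_mul_inv, pow_sub₀ _ (by norm_num) h5, div_eq_mul_inv]
    calc (cnt A x : ℝ) ≤ 2 * PP l (S x + 1) := e1
      _ = 4 * (1 / 2) ^ mm l (Nat.log 2 (S x + 1)) * 2 ^ S x := by rw [e6, pow_succ]; ring
      _ ≤ 4 * (1 / 2) ^ mm l (Nat.log 2 (S x + 1)) * (2 ^ S x * (2 * Real.log 2)) := by
          have : (2 : ℝ) ^ S x ≤ 2 ^ S x * (2 * Real.log 2) :=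
            le_mul_of_one_le_right (by positivity) (by linarith)
          gcongr
      _ = 8 * (1 / 2) ^ mm l (Nat.log 2 (S x + 1)) * (2 ^ S x * Real.log 2) := by ring
      _ ≤ 8 * (1 / 2) ^ mm l (Nat.log 2 (S x + 1)) * Real.log x := by gcongr
  · -- the bound
    have hev : ∀ᶠ x : ℕ in Filter.atTop, max i₀ i₁ ≤ Nat.log 2 (S x + 1) := by
      have b : Filter.Tendsto (fun x : ℕ => S x + 1) Filter.atTop Filter.atTop :=
        Filter.tendsto_atTop_mono (fun x => Nat.le_succ (S x)) S_tendsto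
      exact (log_tendsto.comp b).eventually_ge_atTop _
    obtain ⟨x₀, hx₀⟩ := Filter.eventually_atTop.1 (hev.and (Filter.eventually_ge_atTop 2))
    refine ⟨x₀, fun x hx => ?_⟩
    obtain ⟨hi, hx2⟩ := hx₀ x hx
    set i := Nat.log 2 (S x + 1) with hidef
    have hi0 : i₀ ≤ i := (le_max_left _ _).trans hi
    have hi1 : i₁ ≤ i := (le_max_right _ _).trans hi
    have hk : l i ≤ kap h i := by exact_mod_cast hi₀ i hi0
    have hX : 2 ^ 2 ^ (2 ^ i - 1) ≤ x := by
      refine le_trans ?_ (S_le hx2)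
      have : 2 ^ i ≤ S x + 1 := Nat.pow_log_le_self 2 (by omega)
      exact Nat.pow_le_pow_right (by norm_num) (Nat.pow_le_pow_right (by norm_num) (by omega))
    have hh64 := hi₁ i hi1 x hX
    have hh64' : 64 * (2 : ℝ) ^ l i ≤ h x := by
      refine le_trans ?_ hh64
      have : (2 : ℝ) ^ l i ≤ 2 ^ kap h i := pow_le_pow_right₀ (by norm_num) hk
      linarith
    have e1 : (cnt A x : ℝ) ≤ 2 * PP l (S x + 1) := by exact_mod_cast hupp x hx2
    have e2 := loglog_upper hx2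
    have e4 := log_lower hx2
    -- `(S + 1) * PP (S + 1) ≤ 2 ^ (S + 1) * 2 ^ (l i + 1)`
    have e7 : (S x + 1) * PP l (S x + 1) ≤ 2 ^ (S x + 1) * 2 ^ (l i + 1) := by
      have h5 : mm l i ≤ S x + 1 := mlog_le _
      have h6 : S x + 1 < 2 ^ (i + 1) := Nat.lt_pow_succ_log_self (by norm_num) _
      have h7 := mm_add h3 i
      have h8 : PP l (S x + 1) = 2 ^ (S x + 1 - mm l i) := rfl
      rw [h8]
      calc (S x + 1) * 2 ^ (S x + 1 - mm l i) ≤ 2 ^ (i + 1) * 2 ^ (S x + 1 - mm l i) := by gcongr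
        _ = 2 ^ (S x + 1) * 2 ^ (l i + 1) := by
            rw [← pow_add, ← pow_add]
            congr 1
            omega
    have e8 : ((S x : ℝ) + 1) * PP l (S x + 1) ≤ 2 ^ (S x + 1) * 2 ^ (l i + 1) := by
      exact_mod_cast e7
    have hS0 : (0 : ℝ) ≤ (S x : ℝ) + 1 := by positivity
    have hh0 : 0 ≤ h x := le_trans (by positivity) hh64'
    calc (cnt A x : ℝ) * Real.log (Real.log x) ≤ cnt A x * ((S x : ℝ) + 1) := by gcongr
      _ ≤ 2 * PP l (S x + 1) * ((S x : ℝ) + 1) := by gcongr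
      _ = 2 * (((S x : ℝ) + 1) * PP l (S x + 1)) := by ring
      _ ≤ 2 * (2 ^ (S x + 1) * 2 ^ (l i + 1)) := by gcongr
      _ = (8 * 2 ^ l i) * 2 ^ S x := by rw [pow_succ, pow_succ]; ring
      _ ≤ (8 * 2 ^ l i) * (2 * (2 ^ S x * Real.log 2)) := by
          have : (2 : ℝ) ^ S x ≤ 2 * (2 ^ S x * Real.log 2) := by
            have : (2 : ℝ) ^ S x ≤ 2 ^ S x * (2 * Real.log 2) :=
              le_mul_of_one_le_right (by positivity) (by linarith)
            linarith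
          gcongr
      _ = (16 * 2 ^ l i) * (2 ^ S x * Real.log 2) := by ring
      _ ≤ h x * Real.log x := by
          refine mul_le_mul ?_ e4 (by positivity) hh0
          have : (0 : ℝ) < 2 ^ l i := by positivity
          linarith
  · -- no multiplicities
    refine hNG A ?_ ?_
    · rintro a (rfl | ⟨s, h4, h5⟩)
      · exact Or.inl rfl
      · right
        refine ⟨s, h4, h5.trans_le ?_⟩
        have h6 : PP l (s + 1) ≤ 2 ^ (s + 1) := PP_le _
        have h7 : 2 ^ (s + 1) ≤ 2 ^ 2 ^ s :=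
          Nat.pow_le_pow_right (by norm_num) (Nat.lt_two_pow_self (n := s))
        rw [pow_succ 2 (2 ^ s)]
        omega
    · intro C
      obtain ⟨b, hb⟩ := exists_nat_ge (4 * C)
      have hb2 : (4 * C) ≤ 2 ^ b := hb.trans (by exact_mod_cast (Nat.lt_two_pow_self (n := b)).le)
      obtain ⟨s₀, hs₀⟩ := Filter.eventually_atTop.1
        (((hl.comp log_tendsto).eventually_ge_atTop b).and (Filter.eventually_ge_atTop 4))
      refine ⟨s₀, fun s hs => ?_⟩
      obtain ⟨hs1, hs4⟩ := hs₀ s hs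
      have h5 : S (2 ^ 2 ^ s) = s := by
        unfold S
        rw [Nat.log_pow (by norm_num), Nat.log_pow (by norm_num)]
      have h6 := hlow2 (2 ^ 2 ^ s) (Nat.pow_le_pow_right (by norm_num)
        (Nat.pow_le_pow_right (by norm_num) hs4))
      rw [h5] at h6
      have h7 : 2 ^ (s + l (Nat.log 2 s)) ≤ s * PP l s := by
        have a1 : 2 ^ Nat.log 2 s ≤ s := Nat.pow_log_le_self 2 (by omega)
        have a2 : mm l (Nat.log 2 s) ≤ s := mlog_le _
        have a3 := mm_add h3 (Nat.log 2 s)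
        calc 2 ^ (s + l (Nat.log 2 s)) = 2 ^ Nat.log 2 s * 2 ^ (s - mm l (Nat.log 2 s)) := by
              rw [← pow_add]; congr 1; omega
          _ ≤ s * PP l s := Nat.mul_le_mul a1 le_rfl
      have h8 : 2 ^ (s + b) ≤ 2 * (s * cnt A (2 ^ 2 ^ s)) := by
        calc 2 ^ (s + b) ≤ 2 ^ (s + l (Nat.log 2 s)) :=
              Nat.pow_le_pow_right (by norm_num) (Nat.add_le_add_left hs1 s)
          _ ≤ s * PP l s := h7
          _ ≤ s * (2 * cnt A (2 ^ 2 ^ s)) := Nat.mul_le_mul le_rfl h6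
          _ = _ := by ring
      have h9 : (2 : ℝ) ^ (s + b) ≤ 2 * (s * cnt A (2 ^ 2 ^ s)) := by exact_mod_cast h8
      have h10 : (4 * C) * 2 ^ s ≤ 2 ^ (s + b) := by
        rw [pow_add, mul_comm ((2 : ℝ) ^ s)]
        gcongr
      have h11 : (0 : ℝ) ≤ s * cnt A (2 ^ 2 ^ s) := by positivity
      linarith

end Pool.Agent.H55.PM
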